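import Pool.Agent.Work.MP_c03b87_an.Main

/-!
# MP_c03b87_an: continuous monotone mappings in `W L^n log^{-1} L` satisfy the Lusin condition (N)
-/

set_option autoImplicit false

open MeasureTheory Set Metric

namespace Pool.Agent.Results.MP_c03b87_an.LusinMonotone

/-- `D` is a weak derivative of `f` in `Ω` (so `f ∈ W^{1,1}_loc(Ω, ℝⁿ)` for continuous `f`): `D` is locally integrable
in `Ω` and for every test function `φ`, every direction `v` and every vector `w`
`∫ (∂_v φ) ⟨w, f⟩ = - ∫ φ ⟨w, D v⟩`. -/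
structure IsWeakDeriv {n : ℕ} (Ω : Set (EuclideanSpace ℝ (Fin n)))
    (f : EuclideanSpace ℝ (Fin n) → EuclideanSpace ℝ (Fin n))
    (D : EuclideanSpace ℝ (Fin n) → EuclideanSpace ℝ (Fin n) →L[ℝ] EuclideanSpace ℝ (Fin n)) : Prop where
  locInt : ∀ K ⊆ Ω, IsCompact K → IntegrableOn D K volume
  parts : ∀ φ : EuclideanSpace ℝ (Fin n) → ℝ, ContDiff ℝ ((⊤ : ℕ∞) : WithTop ℕ∞) φ → HasCompactSupport φ →
    tsupport φ ⊆ Ω → ∀ v w : EuclideanSpace ℝ (Fin n),
      ∫ x, fderiv ℝ φ x v * inner ℝ w (f x) = -∫ x, φ x * inner ℝ w (D x v)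

/-- monotone mapping: the oscillation on every ball whose closure is in `Ω` is at most the oscillation on its
boundary sphere -/
def IsMonotone {n : ℕ} (Ω : Set (EuclideanSpace ℝ (Fin n)))
    (f : EuclideanSpace ℝ (Fin n) → EuclideanSpace ℝ (Fin n)) : Prop :=
  ∀ (x : EuclideanSpace ℝ (Fin n)) (r : ℝ), 0 < r → closedBall x r ⊆ Ω → diam (f '' ball x r) ≤ diam (f '' sphere x r)

/-- Lusin's condition (N) -/
def LusinN {n : ℕ} (Ω : Set (EuclideanSpace ℝ (Fin n)))
    (f : EuclideanSpace ℝ (Fin n) → EuclideanSpace ℝ (Fin n)) : Prop :=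
  ∀ E ⊆ Ω, volume E = 0 → volume (f '' E) = 0

/-- `t ^ n / log (e + t)` is monotone -/
private theorem phi_mono {n : ℕ} (hn : 1 ≤ n) {s u : ℝ} (hs : 0 ≤ s) (hsu : s ≤ u) :
    s ^ n / Real.log (Real.exp 1 + s) ≤ u ^ n / Real.log (Real.exp 1 + u) := by
  have he : 0 < Real.exp 1 := Real.exp_pos 1
  have hu : 0 ≤ u := hs.trans hsu
  have hls : 1 ≤ Real.log (Real.exp 1 + s) := by
    rw [Real.le_log_iff_exp_le (by linarith)]
    linarith
  have hlu : 1 ≤ Real.log (Real.exp 1 + u) := by
    rw [Real.le_log_iff_exp_le (by linarith)]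
    linarith
  rcases hs.eq_or_lt with h0 | h0
  · rw [← h0, zero_pow (by omega), zero_div]
    positivity
  rw [div_le_div_iff₀ (by linarith) (by linarith)]
  have h1 : Real.log (Real.exp 1 + u) - Real.log (Real.exp 1 + s) ≤ (u - s) / (Real.exp 1 + s) := by
    rw [← Real.log_div (by linarith) (by linarith)]
    have h2 := Real.log_le_sub_one_of_pos (show 0 < (Real.exp 1 + u) / (Real.exp 1 + s) by positivity)
    refine h2.trans (le_of_eq ?_)
    field_simp
    ring
  have h3 : (u - s) / (Real.exp 1 + s) ≤ (u - s) / s :=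
    div_le_div_of_nonneg_left (by linarith) h0 (by linarith)
  have h4 : Real.log (Real.exp 1 + u) ≤ u / s * Real.log (Real.exp 1 + s) := by
    have h5 : u / s = 1 + (u - s) / s := by
      field_simp
      ring
    have h6 : 0 ≤ (u - s) / s := div_nonneg (by linarith) h0.le
    rw [h5]
    nlinarith
  have h7 : u / s ≤ (u / s) ^ n := by
    have h8 : 1 ≤ u / s := by rw [le_div_iff₀ h0]; linarith
    exact le_self_pow₀ h8 (by omega)
  have h9 : Real.log (Real.exp 1 + u) ≤ (u / s) ^ n * Real.log (Real.exp 1 + s) :=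
    h4.trans (mul_le_mul_of_nonneg_right h7 (by linarith))
  calc s ^ n * Real.log (Real.exp 1 + u) ≤ s ^ n * ((u / s) ^ n * Real.log (Real.exp 1 + s)) :=
        mul_le_mul_of_nonneg_left h9 (by positivity)
    _ = u ^ n * Real.log (Real.exp 1 + s) := by
        rw [div_pow]
        field_simp

/-- `t ^ n / log (e + t)` and multiplication of `t` by a constant `c ≥ 1` -/
private theorem phi_scale {n : ℕ} {c t : ℝ} (hc : 1 ≤ c) (ht : 0 ≤ t) :
    (c * t) ^ n / Real.log (Real.exp 1 + c * t) ≤ c ^ n * (t ^ n / Real.log (Real.exp 1 + t)) := by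
  have he : 0 < Real.exp 1 := Real.exp_pos 1
  have hlt : 1 ≤ Real.log (Real.exp 1 + t) := by
    rw [Real.le_log_iff_exp_le (by linarith)]
    linarith
  have h1 : Real.log (Real.exp 1 + t) ≤ Real.log (Real.exp 1 + c * t) :=
    Real.log_le_log (by linarith) (by nlinarith)
  rw [mul_pow, mul_div_assoc]
  refine mul_le_mul_of_nonneg_left ?_ (by positivity)
  exact div_le_div_of_nonneg_left (by positivity) (by linarith) h1

private theorem frob_le {n : ℕ} (L : EuclideanSpace ℝ (Fin n) →L[ℝ] EuclideanSpace ℝ (Fin n)) :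
    Real.sqrt (∑ i : Fin n, ∑ j : Fin n, inner ℝ (EuclideanSpace.single i (1 : ℝ)) (L (EuclideanSpace.single j 1)) ^ 2) ≤
      Real.sqrt n * ‖L‖ := by
  have h1 : ∀ j : Fin n, ∑ i : Fin n, inner ℝ (EuclideanSpace.single i (1 : ℝ)) (L (EuclideanSpace.single j 1)) ^ 2 ≤
      ‖L‖ ^ 2 := by
    intro j
    have h2 : ‖L (EuclideanSpace.single j (1 : ℝ))‖ ^ 2 =
        ∑ i : Fin n, inner ℝ (EuclideanSpace.single i (1 : ℝ)) (L (EuclideanSpace.single j 1)) ^ 2 := by
      rw [EuclideanSpace.norm_sq_eq]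
      refine Finset.sum_congr rfl fun i _ => ?_
      rw [EuclideanSpace.inner_single_left]
      simp
    rw [← h2]
    have h3 : ‖L (EuclideanSpace.single j (1 : ℝ))‖ ≤ ‖L‖ := by
      have h4 := L.le_opNorm (EuclideanSpace.single j (1 : ℝ))
      rwa [EuclideanSpace.norm_single, norm_one, mul_one] at h4
    exact pow_le_pow_left₀ (norm_nonneg _) h3 2
  rw [Finset.sum_comm]
  have h5 : ∑ j : Fin n, ∑ i : Fin n, inner ℝ (EuclideanSpace.single i (1 : ℝ)) (L (EuclideanSpace.single j 1)) ^ 2 ≤
      n * ‖L‖ ^ 2 := by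
    refine (Finset.sum_le_sum fun j _ => h1 j).trans ?_
    rw [Finset.sum_const, Finset.card_univ, Fintype.card_fin, nsmul_eq_mul]
  refine (Real.sqrt_le_sqrt h5).trans (le_of_eq ?_)
  rw [Real.sqrt_mul (by positivity), Real.sqrt_sq (norm_nonneg _)]

/-- Let `n ≥ 2`, `Ω ⊆ ℝⁿ` open and `f` continuous and monotone on `Ω`, weakly differentiable in `Ω` with
`|Df|^n / log (e + |Df|)` integrable on the compact subsets of `Ω` (`|Df|` the operator norm).
Then `f` satisfies Lusin's condition (N) in `Ω`. -/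
theorem result (n : ℕ) (hn : 2 ≤ n) (Ω : Set (EuclideanSpace ℝ (Fin n))) (hΩ : IsOpen Ω)
    (f : EuclideanSpace ℝ (Fin n) → EuclideanSpace ℝ (Fin n)) (hf : ContinuousOn f Ω) (hmono : IsMonotone Ω f)
    (D : EuclideanSpace ℝ (Fin n) → EuclideanSpace ℝ (Fin n) →L[ℝ] EuclideanSpace ℝ (Fin n))
    (hD : IsWeakDeriv Ω f D)
    (hint : ∀ K ⊆ Ω, IsCompact K → IntegrableOn (fun x => ‖D x‖ ^ n / Real.log (Real.exp 1 + ‖D x‖)) K volume) :
    LusinN Ω f := by
  classical
  intro E hE hE0
  set g : Fin n → Fin n → EuclideanSpace ℝ (Fin n) → ℝ := fun i j x =>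
    inner ℝ (EuclideanSpace.single i (1 : ℝ)) (D x (EuclideanSpace.single j 1)) with hg
  have hlc : IsLocallyClosed Ω := hΩ.isLocallyClosed
  have hgK : ∀ i j, ∀ K ⊆ Ω, IsCompact K → IntegrableOn (g i j) K volume := by
    intro i j K hK hKc
    have h1 := hD.locInt K hK hKc
    have h2 := (ContinuousLinearMap.apply ℝ (EuclideanSpace ℝ (Fin n))
      (EuclideanSpace.single j (1 : ℝ))).integrable_comp h1
    exact (innerSL ℝ (EuclideanSpace.single i (1 : ℝ))).integrable_comp h2
  refine Pool.Agent.Work.MP_c03b87_an.main n hn Ω hΩ f hf ?_ g ?_ ?_ ?_ E hE hE0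
  · -- monotone with closed balls
    intro x r hr hx
    refine le_trans ?_ (hmono x r hr hx)
    have h1 : f '' closedBall x r ⊆ closure (f '' ball x r) := by
      have h2 : closedBall x r = closure (ball x r) := (closure_ball x hr.ne').symm
      have h3 : ContinuousOn f (closure (ball x r)) := by
        rw [← h2]
        exact hf.mono hx
      rw [h2]
      exact h3.image_closure
    have hb : Bornology.IsBounded (f '' ball x r) := by
      have h4 : IsCompact (f '' closedBall x r) := (isCompact_closedBall x r).image_of_continuousOn (hf.mono hx)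
      exact h4.isBounded.subset (image_mono ball_subset_closedBall)
    rw [← Metric.diam_closure (f '' ball x r)]
    exact Metric.diam_mono h1 hb.closure
  · intro i j
    rw [locallyIntegrableOn_iff hlc]
    exact hgK i j
  · intro i j φ h1 h2 h3
    have h4 := hD.parts φ h1 h2 h3 (EuclideanSpace.single j (1 : ℝ)) (EuclideanSpace.single i (1 : ℝ))
    have e1 : (fun x => EuclideanSpace.proj i (f x) * fderiv ℝ φ x (EuclideanSpace.single j (1 : ℝ))) =
        fun x => fderiv ℝ φ x (EuclideanSpace.single j (1 : ℝ)) * inner ℝ (EuclideanSpace.single i (1 : ℝ)) (f x) := by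
      funext x
      rw [EuclideanSpace.inner_single_left, mul_comm]
      simp
    have e2 : (fun x => g i j x * φ x) = fun x => φ x *
        inner ℝ (EuclideanSpace.single i (1 : ℝ)) (D x (EuclideanSpace.single j (1 : ℝ))) := by
      funext x
      rw [hg, mul_comm]
    rw [e1, e2]
    exact h4
  · rw [locallyIntegrableOn_iff hlc]
    intro K hK hKc
    have h1 := (hint K hK hKc).const_mul (Real.sqrt n ^ n)
    refine Integrable.mono h1 ?_ ?_
    · have hm : ∀ i j, AEStronglyMeasurable (g i j) (volume.restrict K) := fun i j =>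
        (hgK i j K hK hKc).aestronglyMeasurable
      have hm2 : AEMeasurable (fun x => Real.sqrt (∑ i, ∑ j, g i j x ^ 2)) (volume.restrict K) := by
        refine Real.continuous_sqrt.measurable.comp_aemeasurable ?_
        refine Finset.aemeasurable_fun_sum _ fun i _ => Finset.aemeasurable_fun_sum _ fun j _ => ?_
        exact (hm i j).aemeasurable.pow_const 2
      exact ((hm2.pow_const n).div (Real.measurable_log.comp_aemeasurable (hm2.const_add _))).aestronglyMeasurable
    · refine Filter.Eventually.of_forall fun x => ?_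
      have hs0 : 0 ≤ Real.sqrt (∑ i, ∑ j, g i j x ^ 2) := Real.sqrt_nonneg _
      have hsu : Real.sqrt (∑ i, ∑ j, g i j x ^ 2) ≤ Real.sqrt n * ‖D x‖ := frob_le (D x)
      have h2 := phi_mono (n := n) (by omega) hs0 hsu
      have hc : 1 ≤ Real.sqrt n := by
        rw [Real.one_le_sqrt]
        exact_mod_cast (by omega : 1 ≤ n)
      have h3 := phi_scale (n := n) hc (norm_nonneg (D x))
      have hlog : ∀ t : ℝ, 0 ≤ t → 0 < Real.log (Real.exp 1 + t) := by
        intro t ht
        have he : 0 < Real.exp 1 := Real.exp_pos 1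
        have : 1 ≤ Real.log (Real.exp 1 + t) := by
          rw [Real.le_log_iff_exp_le (by linarith)]
          linarith
        linarith
      rw [Real.norm_of_nonneg (div_nonneg (pow_nonneg hs0 _) (hlog _ hs0).le), Real.norm_of_nonneg]
      · exact h2.trans h3
      · exact mul_nonneg (by positivity) (div_nonneg (by positivity) (hlog _ (norm_nonneg _)).le)

end Pool.Agent.Results.MP_c03b87_an.LusinMonotone
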